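import Pool.Agent.Helper12.RQ.Polar

/-!
# Sharpness of (E3) (packet E3L)
-/

set_option autoImplicit false

open MeasureTheory Set Filter Topology Metric

open scoped ENNReal NNReal ContDiff RealInnerProductSpace

namespace Pool.Agent.Helper39.RQ

open Pool.Agent.Helper12.RQ

section star

variable {n : ℕ} {a c l : ℝ} {R : E n → ℝ}

theorem star_pos (hR : IsStar c l R) (y : E n) (hy : y ≠ 0) : 0 < R y := by
  have h := hR.slope y 0 ⟨le_rfl, zero_le_one⟩
  simp only [sub_zero, mul_one, zero_smul, hR.zero] at h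
  have : 0 < c * ‖y‖ := mul_pos hR.cpos (norm_pos_iff.mpr hy)
  linarith

theorem star_cont (hR : IsStar c l R) : Continuous R := by
  have hl : LipschitzWith (Real.toNNReal |l|) R := by
    refine LipschitzWith.of_dist_le_mul fun y z => ?_
    rw [Real.dist_eq, dist_eq_norm, Real.coe_toNNReal _ (abs_nonneg l)]
    exact (hR.lip y z).trans (mul_le_mul_of_nonneg_right (le_abs_self l) (norm_nonneg _))
  exact hl.continuous

theorem lt_one_iff (hR : IsStar c l R) (h1 : ∀ y : E n, ‖y‖ = 1 → R y = 1) (y : E n) :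
    R y < 1 ↔ ‖y‖ < 1 := by
  by_cases hy : y = 0
  · subst hy
    simp [hR.zero]
  have hyn : 0 < ‖y‖ := norm_pos_iff.mpr hy
  have hu : ‖(‖y‖⁻¹ • y)‖ = 1 := by
    rw [norm_smul, norm_inv, norm_norm, inv_mul_cancel₀ hyn.ne']
  have hRu := h1 _ hu
  constructor
  · intro h
    by_contra hc
    push Not at hc
    have hs := hR.slope y ‖y‖⁻¹ ⟨by positivity, inv_le_one_of_one_le₀ hc⟩
    rw [hRu] at hs
    have : 0 ≤ c * (1 - ‖y‖⁻¹) * ‖y‖ :=
      mul_nonneg (mul_nonneg hR.cpos.le (sub_nonneg.mpr (inv_le_one_of_one_le₀ hc))) hyn.le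
    linarith
  · intro h
    have hs := hR.slope (‖y‖⁻¹ • y) ‖y‖ ⟨hyn.le, h.le⟩
    rw [hRu, hu, smul_smul, mul_inv_cancel₀ hyn.ne', one_smul] at hs
    have : 0 < c * (1 - ‖y‖) * 1 := by
      have := hR.cpos
      have h2 : 0 < 1 - ‖y‖ := by linarith
      positivity
    linarith

theorem R_inv (ha : 0 < a) (hs : ∀ y, R (a • y) = a * R y) (y : E n) :
    R (a⁻¹ • y) = a⁻¹ * R y := by
  have := hs (a⁻¹ • y)
  rw [smul_smul, mul_inv_cancel₀ ha.ne', one_smul] at this
  rw [this, ← mul_assoc, inv_mul_cancel₀ ha.ne', one_mul]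

theorem lt_a_iff (ha : 0 < a) (hR : IsStar c l R) (h1 : ∀ y : E n, ‖y‖ = 1 → R y = 1)
    (hs : ∀ y, R (a • y) = a * R y) (y : E n) :
    R y < a ↔ ‖y‖ < a := by
  have h := lt_one_iff hR h1 (a⁻¹ • y)
  rw [R_inv ha hs, norm_smul, norm_inv, Real.norm_of_nonneg ha.le, inv_mul_lt_iff₀ ha,
    inv_mul_lt_iff₀ ha, mul_one] at h
  exact h

theorem R_pow (hs : ∀ y, R (a • y) = a * R y) (j : ℕ) (y : E n) :
    R (a ^ j • y) = a ^ j * R y := by
  induction j with
  | zero => simp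
  | succ j ih => rw [pow_succ', mul_smul, hs, ih, mul_assoc]

/-- self-similarity of the flux -/
theorem flux_self (h6 : StmtSCAL) {p : ℝ} (hp : 0 < p) (ha : 0 < a) (hR : IsStar c l R)
    (hs : ∀ y, R (a • y) = a * R y) (r : ℝ) :
    flux p R (Ioo 0 (a * r)) = ENNReal.ofReal (a ^ n) * flux p R (Ioo 0 r) := by
  have h := h6 n p hp R a ha (star_cont hR) (Ioo 0 r) measurableSet_Ioo
  have hset : (fun y => R (a⁻¹ • y)) ⁻¹' (Ioo 0 r) = R ⁻¹' (Ioo 0 (a * r)) := by
    ext y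
    simp only [mem_preimage, mem_Ioo, R_inv ha hs]
    rw [inv_mul_lt_iff₀ ha, mul_pos_iff_of_pos_left (inv_pos.mpr ha)]
  have hfd : ∀ y, ‖fderiv ℝ (fun y => R (a⁻¹ • y)) y‖ₑ ^ p =
      ENNReal.ofReal (a ^ (-p)) * ‖fderiv ℝ R y‖ₑ ^ p := by
    intro y
    have e1 : (fun y => R (a⁻¹ • y)) = fun y => a⁻¹ * R y := funext fun y => R_inv ha hs y
    have e2 : fderiv ℝ (fun y => a⁻¹ * R y) y = a⁻¹ • fderiv ℝ R y := by
      have := congrFun (fderiv_const_smul_field (𝕜 := ℝ) (f := R) a⁻¹) y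
      simpa [Pi.smul_def, smul_eq_mul] using this
    rw [e1, e2, enorm_smul, ENNReal.mul_rpow_of_nonneg _ _ hp.le]
    congr 1
    rw [Real.enorm_eq_ofReal (by positivity), ENNReal.ofReal_rpow_of_pos (by positivity),
      Real.rpow_neg ha.le, Real.inv_rpow ha.le]
  unfold flux at h
  rw [hset] at h
  simp_rw [hfd] at h
  rw [lintegral_const_mul' _ _ ENNReal.ofReal_ne_top] at h
  unfold flux
  have e3 : ENNReal.ofReal (a ^ p) * ENNReal.ofReal (a ^ (-p)) = 1 := by
    rw [← ENNReal.ofReal_mul (by positivity), ← Real.rpow_add ha]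
    simp
  have e4 : ENNReal.ofReal (a ^ p) * ENNReal.ofReal (a ^ ((n : ℝ) - p)) =
      ENNReal.ofReal (a ^ n) := by
    rw [← ENNReal.ofReal_mul (by positivity), ← Real.rpow_add ha]
    congr 1
    rw [← Real.rpow_natCast]
    congr 1
    ring
  calc ∫⁻ y in R ⁻¹' Ioo 0 (a * r), ‖fderiv ℝ R y‖ₑ ^ p
      = ENNReal.ofReal (a ^ p) * (ENNReal.ofReal (a ^ (-p)) *
          ∫⁻ y in R ⁻¹' Ioo 0 (a * r), ‖fderiv ℝ R y‖ₑ ^ p) := by
        rw [← mul_assoc, e3, one_mul]
    _ = _ := by rw [h, ← mul_assoc, e4]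

end star

/-- the flux on `(0, r)` is at most `(1 + ε)^2 V r^n` for `a ≤ r ≤ 1` -/
theorem flux_block (h6 : StmtSCAL) {n : ℕ} (hn : 2 ≤ n) {a c l p ε : ℝ} {R R₀ : E n → ℝ}
    (hp : 0 < p) (ha : 0 < a) (ha1 : a < 1) (hε : 0 < ε) (hR : IsStar c l R)
    (hs : ∀ y, R (a • y) = a * R y) (h1 : ∀ y : E n, ‖y‖ = 1 → R y = 1)
    (hRR : ∀ y, a ≤ ‖y‖ → ‖y‖ ≤ 1 → R y = R₀ y)
    (hfin : flux p R (Ioo 0 1) < ⊤)
    (hb1 : ∫⁻ y in {y : E n | a < ‖y‖ ∧ ‖y‖ < 1}, ‖fderiv ℝ R₀ y‖ₑ ^ p ≤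
      ENNReal.ofReal ((1 + ε) * (1 - a ^ n) * (om n / n)))
    (hb2 : ∀ r : ℝ, a ≤ r → r ≤ 1 →
      ENNReal.ofReal ((1 + ε) * (om n / n * a ^ n)) +
        ∫⁻ y in {y : E n | a < ‖y‖ ∧ ‖y‖ < 1 ∧ R₀ y < r}, ‖fderiv ℝ R₀ y‖ₑ ^ p ≤
      ENNReal.ofReal ((1 + ε) ^ 2 * (om n / n * r ^ n))) :
    ∀ r : ℝ, a ≤ r → r ≤ 1 →
      flux p R (Ioo 0 r) ≤ ENNReal.ofReal ((1 + ε) ^ 2 * (om n / n * r ^ n)) := by
  have hn1 : 1 ≤ n := by omega
  have hnR : (0 : ℝ) < n := by exact_mod_cast hn1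
  have hV : 0 < om n / n := div_pos (om_pos n hn1) hnR
  have han : a ^ n < 1 := pow_lt_one₀ ha.le ha1 (by omega)
  have hnt : Nontrivial (E n) := by
    have : Nonempty (Fin n) := ⟨⟨0, hn1⟩⟩
    infer_instance
  -- splitting
  have hsplit : ∀ r : ℝ, a ≤ r → r ≤ 1 → flux p R (Ioo 0 r) ≤ flux p R (Ioo 0 a) +
      ∫⁻ y in {y : E n | a < ‖y‖ ∧ ‖y‖ < 1 ∧ R₀ y < r}, ‖fderiv ℝ R₀ y‖ₑ ^ p := by
    intro r har hr1
    have hO : IsOpen {y : E n | a < ‖y‖ ∧ ‖y‖ < 1} :=
      (isOpen_lt continuous_const continuous_norm).inter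
        (isOpen_lt continuous_norm continuous_const)
    have hsub : R ⁻¹' Ioo 0 r ⊆ (R ⁻¹' Ioo 0 a ∪ sphere (0 : E n) a) ∪
        {y : E n | a < ‖y‖ ∧ ‖y‖ < 1 ∧ R y < r} := by
      intro y hy
      have hy1 : R y < 1 := lt_of_lt_of_le hy.2 hr1
      have hy2 := (lt_one_iff hR h1 y).mp hy1
      rcases lt_trichotomy ‖y‖ a with h | h | h
      · left; left
        exact ⟨hy.1, (lt_a_iff ha hR h1 hs y).mpr h⟩
      · left; right
        simpa using h
      · right
        exact ⟨h, hy2, hy.2⟩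
    have hm3 : MeasurableSet {y : E n | a < ‖y‖ ∧ ‖y‖ < 1 ∧ R y < r} := by
      have hO' : IsOpen {y : E n | a < ‖y‖ ∧ ‖y‖ < 1 ∧ R y < r} :=
        (isOpen_lt continuous_const continuous_norm).inter
          ((isOpen_lt continuous_norm continuous_const).inter
            (isOpen_lt (star_cont hR) continuous_const))
      exact hO'.measurableSet
    calc flux p R (Ioo 0 r)
        ≤ ∫⁻ y in (R ⁻¹' Ioo 0 a ∪ sphere (0 : E n) a) ∪
            {y : E n | a < ‖y‖ ∧ ‖y‖ < 1 ∧ R y < r}, ‖fderiv ℝ R y‖ₑ ^ p :=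
          lintegral_mono_set hsub
      _ ≤ (∫⁻ y in R ⁻¹' Ioo 0 a ∪ sphere (0 : E n) a, ‖fderiv ℝ R y‖ₑ ^ p) +
            ∫⁻ y in {y : E n | a < ‖y‖ ∧ ‖y‖ < 1 ∧ R y < r}, ‖fderiv ℝ R y‖ₑ ^ p :=
          lintegral_union_le _ _ _
      _ ≤ ((∫⁻ y in R ⁻¹' Ioo 0 a, ‖fderiv ℝ R y‖ₑ ^ p) +
            ∫⁻ y in sphere (0 : E n) a, ‖fderiv ℝ R y‖ₑ ^ p) +
            ∫⁻ y in {y : E n | a < ‖y‖ ∧ ‖y‖ < 1 ∧ R y < r}, ‖fderiv ℝ R y‖ₑ ^ p :=
          add_le_add (lintegral_union_le _ _ _) le_rfl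
      _ = flux p R (Ioo 0 a) +
            ∫⁻ y in {y : E n | a < ‖y‖ ∧ ‖y‖ < 1 ∧ R y < r}, ‖fderiv ℝ R y‖ₑ ^ p := by
          have : ∫⁻ y in sphere (0 : E n) a, ‖fderiv ℝ R y‖ₑ ^ p = 0 := by
            rw [Measure.restrict_eq_zero.mpr (Measure.addHaar_sphere _ _ _)]
            simp
          rw [this, add_zero]
          rfl
      _ = _ := by
          congr 1
          have hseteq : {y : E n | a < ‖y‖ ∧ ‖y‖ < 1 ∧ R y < r} =
              {y : E n | a < ‖y‖ ∧ ‖y‖ < 1 ∧ R₀ y < r} := by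
            ext y
            simp only [mem_ofPred_eq]
            constructor
            · rintro ⟨h1', h2', h3'⟩
              exact ⟨h1', h2', by rw [← hRR y h1'.le h2'.le]; exact h3'⟩
            · rintro ⟨h1', h2', h3'⟩
              exact ⟨h1', h2', by rw [hRR y h1'.le h2'.le]; exact h3'⟩
          rw [hseteq] at hm3 ⊢
          refine setLIntegral_congr_fun hm3 fun y hy => ?_
          have hev : R =ᶠ[𝓝 y] R₀ := by
            filter_upwards [hO.mem_nhds ⟨hy.1, hy.2.1⟩] with z hz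
            exact hRR z hz.1.le hz.2.le
          simp only [hev.fderiv_eq]
  have hself := flux_self h6 hp ha hR hs 1
  rw [mul_one] at hself
  -- the bound of the flux on `(0, 1)`
  have hF1 : flux p R (Ioo 0 1) ≤ ENNReal.ofReal ((1 + ε) * (om n / n)) := by
    have h := hsplit 1 ha1.le le_rfl
    have hsub : ∫⁻ y in {y : E n | a < ‖y‖ ∧ ‖y‖ < 1 ∧ R₀ y < 1}, ‖fderiv ℝ R₀ y‖ₑ ^ p ≤
        ENNReal.ofReal ((1 + ε) * (1 - a ^ n) * (om n / n)) := by
      have hss : {y : E n | a < ‖y‖ ∧ ‖y‖ < 1 ∧ R₀ y < 1} ⊆ {y : E n | a < ‖y‖ ∧ ‖y‖ < 1} :=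
        fun y hy => ⟨hy.1, hy.2.1⟩
      exact (lintegral_mono_set hss).trans hb1
    have h2 : flux p R (Ioo 0 1) ≤ ENNReal.ofReal (a ^ n) * flux p R (Ioo 0 1) +
        ENNReal.ofReal ((1 + ε) * (1 - a ^ n) * (om n / n)) := by
      rw [← hself]
      exact h.trans (add_le_add le_rfl hsub)
    obtain ⟨F, hF⟩ : ∃ F : ℝ≥0, flux p R (Ioo 0 1) = F := ⟨_, (ENNReal.coe_toNNReal hfin.ne).symm⟩
    rw [hF] at h2 ⊢
    have hFr : (F : ℝ≥0∞) = ENNReal.ofReal (F : ℝ) := by simp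
    rw [hFr] at h2 ⊢
    have hpos : 0 ≤ (1 + ε) * (1 - a ^ n) * (om n / n) :=
      mul_nonneg (mul_nonneg (by linarith) (by linarith)) hV.le
    rw [← ENNReal.ofReal_mul (by positivity), ← ENNReal.ofReal_add (by positivity) hpos,
      ENNReal.ofReal_le_ofReal_iff (by positivity)] at h2
    refine ENNReal.ofReal_le_ofReal ?_
    have h3 : (1 - a ^ n) * (F : ℝ) ≤ (1 - a ^ n) * ((1 + ε) * (om n / n)) := by
      nlinarith
    exact le_of_mul_le_mul_left h3 (by linarith)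
  intro r har hr1
  refine (hsplit r har hr1).trans (le_trans (add_le_add ?_ le_rfl) (hb2 r har hr1))
  rw [hself]
  calc ENNReal.ofReal (a ^ n) * flux p R (Ioo 0 1)
      ≤ ENNReal.ofReal (a ^ n) * ENNReal.ofReal ((1 + ε) * (om n / n)) :=
        mul_le_mul_right hF1 _
    _ = _ := by
        rw [← ENNReal.ofReal_mul (by positivity)]
        congr 1
        ring

/-- the flux on `(0, r)` is at most `(1 + ε)^2 V r^n` for `0 < r ≤ 1` -/
theorem flux_all (h6 : StmtSCAL) {n : ℕ} {a c l p K : ℝ} {R : E n → ℝ}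
    (hp : 0 < p) (ha : 0 < a) (ha1 : a < 1) (hR : IsStar c l R)
    (hs : ∀ y, R (a • y) = a * R y)
    (hb : ∀ r : ℝ, a ≤ r → r ≤ 1 →
      flux p R (Ioo 0 r) ≤ ENNReal.ofReal (K * r ^ n)) :
    ∀ r : ℝ, 0 < r → r ≤ 1 → flux p R (Ioo 0 r) ≤ ENNReal.ofReal (K * r ^ n) := by
  have hstep : ∀ j : ℕ, ∀ r : ℝ, a ≤ r → r ≤ 1 →
      flux p R (Ioo 0 (a ^ j * r)) ≤ ENNReal.ofReal (K * (a ^ j * r) ^ n) := by
    intro j
    induction j with
    | zero =>
      intro r h1 h2
      simpa using hb r h1 h2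
    | succ j ih =>
      intro r h1 h2
      have e1 : a ^ (j + 1) * r = a * (a ^ j * r) := by ring
      rw [e1, flux_self h6 hp ha hR hs]
      calc ENNReal.ofReal (a ^ n) * flux p R (Ioo 0 (a ^ j * r))
          ≤ ENNReal.ofReal (a ^ n) * ENNReal.ofReal (K * (a ^ j * r) ^ n) :=
            mul_le_mul_right (ih r h1 h2) _
        _ = _ := by
            rw [← ENNReal.ofReal_mul (by positivity)]
            congr 1
            ring
  intro r hr hr1
  obtain ⟨j, hj1, hj2⟩ := exists_nat_pow_near_of_lt_one hr hr1 ha ha1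
  have haj : 0 < a ^ j := by positivity
  have h := hstep j (r / a ^ j) (by rw [le_div_iff₀ haj, ← pow_succ']; exact hj1.le)
    (by rw [div_le_one haj]; exact hj2)
  rwa [mul_div_cancel₀ _ haj.ne'] at h

theorem e3l (h1 : StmtGLUE) (h2 : StmtBLK) (h3 : StmtDENS) (h4 : StmtHOMEO) (h5 : StmtIRQ)
    (h6 : StmtSCAL) (_h7 : StmtPOS) : StmtE3L := by
  intro n p hn hp1 hp2 C hC hE
  have hn1 : 1 ≤ n := by omega
  have hn2 : (2 : ℝ) ≤ n := by exact_mod_cast hn
  have hp0 : 1 < p := by linarith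
  have hpp : 0 < p := by linarith
  have hnR : (0 : ℝ) < n := by linarith
  have hnt : Nontrivial (E n) := by
    have : Nonempty (Fin n) := ⟨⟨0, hn1⟩⟩
    infer_instance
  have hV : 0 < om n / n := div_pos (om_pos n hn1) hnR
  have hom : 0 < om n := om_pos n hn1
  have key : ∀ ε : ℝ, 0 < ε → ε < 1 →
      C3 n p ≤ (1 + ε) * (C * ((1 + ε) ^ 2) ^ (1 / ((n : ℝ) - p))) := by
    intro ε hε hε1
    obtain ⟨a, b, lam, c, l, e, R₀, ha, hab, hb1, hal, hl1, hc, hc1, hll, he, hlip, hsl, hone,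
      haa, hRlam, hC3, hblk1, hblk2⟩ := h2 n p hn hp1 hp2 ε hε hε1
    have ha1 : a < 1 := hab.trans hb1
    have hb : 0 < b := ha.trans hab
    have hlam : 0 < lam := ha.trans hal
    obtain ⟨R, hR, hRR, hs⟩ := h1 n a c l R₀ ha ha1 hc hc1 hll
      (fun y z _ _ _ _ => hlip y z) hsl hone haa
    have hR1 : ∀ y : E n, ‖y‖ = 1 → R y = 1 := fun y hy => by
      rw [hRR y (by rw [hy]; exact ha1.le) hy.le, hone y hy]
    obtain ⟨⟨D, d₁, d₂, hD⟩, -⟩ := h3 n p c l R hn hp0.le hR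
    obtain ⟨f, hf, hfs⟩ := h4 n c l R hR
    have hf0 : f 0 = 0 := by
      obtain ⟨s, -, hs0⟩ := hfs 0
      rw [hs0, smul_zero]
    have hfin : flux p R (Ioo 0 1) < ⊤ := by
      rw [hD.flux_eq _ measurableSet_Ioo Ioo_subset_Ioi_self]
      calc ∫⁻ t in Ioo (0 : ℝ) 1, D t ≤ ∫⁻ _t in Ioo (0 : ℝ) 1, ENNReal.ofReal |d₂| := by
            refine setLIntegral_mono' measurableSet_Ioo fun t ht => ?_
            refine (hD.upper t ht.1).trans (ENNReal.ofReal_le_ofReal ?_)
            have ht1 : t ^ (n - 1) ≤ 1 := pow_le_one₀ ht.1.le ht.2.le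
            have ht0 : 0 ≤ t ^ (n - 1) := pow_nonneg ht.1.le _
            calc d₂ * t ^ (n - 1) ≤ |d₂| * t ^ (n - 1) :=
                  mul_le_mul_of_nonneg_right (le_abs_self _) ht0
              _ ≤ |d₂| * 1 := mul_le_mul_of_nonneg_left ht1 (abs_nonneg _)
              _ = |d₂| := mul_one _
        _ < ⊤ := by
            rw [setLIntegral_const]
            exact ENNReal.mul_lt_top ENNReal.ofReal_lt_top measure_Ioo_lt_top
    set K : ℝ := (1 + ε) ^ 2 * (om n / n) with hK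
    have hflux := flux_all h6 (K := K) hpp ha ha1 hR hs (by
      intro r har hr1
      have := flux_block h6 hn hpp ha ha1 hε hR hs hR1 hRR hfin hblk1 hblk2 r har hr1
      rwa [← mul_assoc] at this)
    -- the function `Q`
    set q : ℝ → ℝ≥0∞ := fun s => D s / ENNReal.ofReal (om n * s ^ (n - 1)) with hq
    have hqm : Measurable q := by
      have := hD.meas
      fun_prop
    have hQint : ∀ B, MeasurableSet B → B ⊆ Ioi (0 : ℝ) →
        flux p R B = ∫⁻ x in {x : E n | ‖x‖ ∈ B}, q ‖x‖ := by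
      intro B hB hB0
      rw [polar n hn1 q hqm B hB hB0, hD.flux_eq B hB hB0,
        ← lintegral_const_mul' _ _ ENNReal.ofReal_ne_top]
      refine setLIntegral_congr_fun hB fun s hs' => ?_
      have hs0 : 0 < s := hB0 hs'
      have hsn : 0 < s ^ (n - 1) := by positivity
      have e1 : ENNReal.ofReal (om n * s ^ (n - 1)) =
          ENNReal.ofReal (om n) * ENNReal.ofReal (s ^ (n - 1)) :=
        ENNReal.ofReal_mul hom.le
      have h0 : ENNReal.ofReal (om n * s ^ (n - 1)) ≠ 0 := by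
        simp only [ne_eq, ENNReal.ofReal_eq_zero, not_le]
        positivity
      simp only [hq]
      calc D s = D s / ENNReal.ofReal (om n * s ^ (n - 1)) *
            ENNReal.ofReal (om n * s ^ (n - 1)) :=
            (ENNReal.div_mul_cancel h0 ENNReal.ofReal_ne_top).symm
        _ = _ := by
            conv_lhs => rw [e1]
            rw [e1]
            ring
    have hRQ : IsRingQHomeo p univ 0 (fun x : E n => q ‖x‖) f := by
      refine h5 n p c l R f univ _ hpp hR hf isOpen_univ (hqm.comp measurable_norm) ?_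
      intro ρ _ _ B hB hB'
      exact (hQint B hB (hB'.trans Ioo_subset_Ioi_self)).le
    have hData : Data p univ 0 (fun x : E n => q ‖x‖) f :=
      ⟨isOpen_univ, isConnected_univ, mem_univ _, hqm.comp measurable_norm, hRQ⟩
    -- the upper limit of the means
    have hQbar : Qbar (fun x : E n => q ‖x‖) 0 ≤ ENNReal.ofReal ((1 + ε) ^ 2) := by
      unfold Qbar
      refine limsup_le_of_le (by isBoundedDefault) ?_
      have hmem : Ioo (0 : ℝ) 1 ∈ 𝓝[>] (0 : ℝ) := Ioo_mem_nhdsGT one_pos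
      filter_upwards [hmem] with r hr
      have hball : ∫⁻ x in ball (0 : E n) r, q ‖x‖ ≤ flux p R (Ioo 0 r) := by
        rw [hQint _ measurableSet_Ioo Ioo_subset_Ioi_self]
        have hsub : ball (0 : E n) r ⊆ {0} ∪ {x : E n | ‖x‖ ∈ Ioo 0 r} := by
          intro x hx
          by_cases h0 : x = 0
          · left; exact h0
          · right
            exact ⟨norm_pos_iff.mpr h0, by simpa using hx⟩
        calc ∫⁻ x in ball (0 : E n) r, q ‖x‖
            ≤ ∫⁻ x in {0} ∪ {x : E n | ‖x‖ ∈ Ioo 0 r}, q ‖x‖ := lintegral_mono_set hsub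
          _ ≤ (∫⁻ x in ({0} : Set (E n)), q ‖x‖) + ∫⁻ x in {x : E n | ‖x‖ ∈ Ioo 0 r}, q ‖x‖ :=
              lintegral_union_le _ _ _
          _ = _ := by
              rw [Measure.restrict_eq_zero.mpr (measure_singleton _)]
              simp
      have hv := vol_ball n hn1 (0 : E n) r hr.1.le
      rw [hv]
      have hr0 : 0 < om n / n * r ^ n := mul_pos hV (pow_pos hr.1 _)
      refine ENNReal.div_le_of_le_mul ?_
      refine (hball.trans (hflux r hr.1 hr.2.le)).trans (le_of_eq ?_)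
      rw [← ENNReal.ofReal_mul (by positivity), hK]
      congr 1
      ring
    -- the upper limit of the quotients
    have hLbar : ENNReal.ofReal (lam / b) ≤ Lbar f 0 := by
      unfold Lbar
      set x : ℕ → E n := fun j => f.symm (a ^ j • lam • e) with hx
      have hRl : R (lam • e) = b := by
        rw [hRR _ (by rw [norm_smul, he, mul_one, Real.norm_of_nonneg hlam.le]; exact hal.le)
          (by rw [norm_smul, he, mul_one, Real.norm_of_nonneg hlam.le]; exact hl1.le), hRlam]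
      have hxn : ∀ j, ‖x j‖ = a ^ j * b := by
        intro j
        rw [← hf (x j), hx, Homeomorph.apply_symm_apply, R_pow hs, hRl]
      have hfx : ∀ j, ‖f (x j) - f 0‖ = a ^ j * lam := by
        intro j
        rw [hf0, sub_zero, hx, Homeomorph.apply_symm_apply, norm_smul, norm_smul, he, mul_one,
          Real.norm_of_nonneg (by positivity), Real.norm_of_nonneg hlam.le]
      have htend : Tendsto x atTop (𝓝[≠] 0) := by
        refine tendsto_nhdsWithin_iff.mpr ⟨?_, ?_⟩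
        · rw [tendsto_zero_iff_norm_tendsto_zero]
          simp_rw [hxn]
          have := (tendsto_pow_atTop_nhds_zero_of_lt_one ha.le ha1).mul_const b
          simpa using this
        · filter_upwards with j
          have : 0 < ‖x j‖ := by rw [hxn]; positivity
          simpa using norm_pos_iff.mp this
      refine le_limsup_of_frequently_le' ?_
      refine htend.frequently (Eventually.frequently (Eventually.of_forall fun j => ?_))
      refine ENNReal.ofReal_le_ofReal (le_of_eq ?_)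
      rw [hfx, sub_zero, hxn]
      have : a ^ j ≠ 0 := by positivity
      field_simp
    have hE3 := hE univ 0 _ f hData (lt_of_le_of_lt hQbar ENNReal.ofReal_lt_top)
    have hex : 0 < 1 / ((n : ℝ) - p) := by
      have : 0 < (n : ℝ) - p := by linarith
      positivity
    have h8 : ENNReal.ofReal (lam / b) ≤
        ENNReal.ofReal (C * ((1 + ε) ^ 2) ^ (1 / ((n : ℝ) - p))) := by
      refine (hLbar.trans hE3).trans ?_
      rw [ENNReal.ofReal_mul hC, ← ENNReal.ofReal_rpow_of_pos (by positivity)]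
      exact mul_le_mul_right (ENNReal.rpow_le_rpow hQbar hex.le) _
    have h9 : lam / b ≤ C * ((1 + ε) ^ 2) ^ (1 / ((n : ℝ) - p)) := by
      rwa [ENNReal.ofReal_le_ofReal_iff (by positivity)] at h8
    exact hC3.trans (mul_le_mul_of_nonneg_left h9 (by linarith))
  -- the limit
  have hcont : Tendsto (fun ε : ℝ => (1 + ε) * (C * ((1 + ε) ^ 2) ^ (1 / ((n : ℝ) - p))))
      (𝓝[>] 0) (𝓝 ((1 + 0) * (C * ((1 + 0) ^ 2) ^ (1 / ((n : ℝ) - p))))) := by
    refine Tendsto.mono_left ?_ nhdsWithin_le_nhds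
    have hex : 0 ≤ 1 / ((n : ℝ) - p) := by
      have : 0 < (n : ℝ) - p := by linarith
      positivity
    have hc : Continuous fun ε : ℝ => (1 + ε) * (C * ((1 + ε) ^ 2) ^ (1 / ((n : ℝ) - p))) := by
      refine (continuous_const.add continuous_id).mul (continuous_const.mul ?_)
      exact (((continuous_const.add continuous_id).pow 2).rpow_const fun _ => Or.inr hex)
    exact hc.tendsto 0
  have hfinal := ge_of_tendsto hcont (by
    filter_upwards [Ioo_mem_nhdsGT (zero_lt_one' ℝ)] with ε hε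
    exact key ε hε.1 hε.2)
  simpa using hfinal

end Pool.Agent.Helper39.RQ
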